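import Mathlib

set_option autoImplicit false

/-!
For every `r ≥ 4` there is a digraph (parallel edges allowed, no loops) on six vertices in which
every vertex has out-degree `r` and `λ(x, y) ≤ r - 1` for all pairs of distinct vertices, in
particular for every edge `(x, y)`. This answers the second question of Mader (Q2) negatively, for
all `r ≥ 4`.

The digraph: two directed structures `{0, 1, 3}` and `{2, 4, 5}`, with
`0 → 3 (1), 0 → 4 (r-1), 1 → 0 (2), 1 → 3 (r-2), 3 → 0 (1), 3 → 1 (r-1)` and
`4 → 2 (1), 4 → 0 (r-1), 5 → 4 (2), 5 → 2 (r-2), 2 → 4 (1), 2 → 5 (r-1)` (in brackets the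
numbers of parallel edges). Every target is separated from every other vertex by a set of at most
`r - 1` edges.
-/

namespace Pool.Agent.Results.MP_542d22_co.EdgesEveryOrder

open Finset

/-- A digraph with vertex set `V` and edge set `E`: every edge has a tail and a head, which are
different; parallel edges are allowed. -/
structure Digraph (V E : Type) where
  /-- the tail of an edge -/
  tail : E → V
  /-- the head of an edge -/
  head : E → V
  ne : ∀ e, tail e ≠ head e

variable {V E : Type}

/-- `l` is the list of the edges of a directed path from `x` to `y`: consecutive edges fit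
together and the vertices are distinct. -/
def IsPath (D : Digraph V E) (x y : V) (l : List E) : Prop :=
  l ≠ [] ∧ (∀ e ∈ l.head?, D.tail e = x) ∧ (∀ e ∈ l.getLast?, D.head e = y) ∧
    l.IsChain (fun a b => D.head a = D.tail b) ∧ (x :: l.map D.head).Nodup

/-- `λ(x, y)`, the largest number of pairwise edge-disjoint directed paths from `x` to `y`. -/
noncomputable def lam (D : Digraph V E) (x y : V) : ℕ :=
  sSup {k | ∃ P : Fin k → List E, (∀ i, IsPath D x y (P i)) ∧
    ∀ i j, i ≠ j → (P i).Disjoint (P j)}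

/-- The out-degree of `v`. -/
noncomputable def outDeg (D : Digraph V E) (v : V) : ℕ := Nat.card {e : E // D.tail e = v}

/-- A path that starts in `S` and ends outside of `S` uses an edge leaving `S`. -/
lemma cross (D : Digraph V E) (S : Set V) :
    ∀ (l : List E) (x y : V), l ≠ [] → (∀ e ∈ l.head?, D.tail e = x) →
      (∀ e ∈ l.getLast?, D.head e = y) → l.IsChain (fun a b => D.head a = D.tail b) →
      x ∈ S → y ∉ S → ∃ e ∈ l, D.tail e ∈ S ∧ D.head e ∉ S := by
  intro l
  induction l with
  | nil => intro x y h; exact absurd rfl h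
  | cons a t ih =>
    intro x y _ h1 h2 h3 hx hy
    have ha : D.tail a = x := h1 a (by simp)
    by_cases hS : D.head a ∈ S
    · cases t with
      | nil =>
        have : D.head a = y := h2 a (by simp)
        exact absurd (this ▸ hS) hy
      | cons b t' =>
        have hab : D.head a = D.tail b := (List.isChain_cons_cons.1 h3).1
        obtain ⟨e, he, h⟩ := ih (D.head a) y (by simp)
          (by intro e he
              simp at he
              rw [← he]; exact hab.symm)
          (by intro e he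
              apply h2 e
              simpa [List.getLast?_cons_cons] using he)
          (List.isChain_cons_cons.1 h3).2 hS hy
        exact ⟨e, List.mem_cons_of_mem _ he, h⟩
    · exact ⟨a, by simp, by rw [ha]; exact hx, hS⟩

/-- A cut bounds `λ`. -/
lemma lam_le [Fintype E] [DecidableEq V] (D : Digraph V E) (S : Finset V) (x y : V) (hx : x ∈ S)
    (hy : y ∉ S) (m : ℕ)
    (hS : (univ.filter (fun e : E => D.tail e ∈ S ∧ D.head e ∉ S)).card ≤ m) :
    lam D x y ≤ m := by
  unfold lam
  apply csSup_le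
  · exact ⟨0, fun i => i.elim0, fun i => i.elim0, fun i => i.elim0⟩
  · rintro k ⟨P, hP, hdis⟩
    have hex : ∀ i : Fin k, ∃ e ∈ P i, D.tail e ∈ S ∧ D.head e ∉ S := by
      intro i
      obtain ⟨h0, h1, h2, h3, _⟩ := hP i
      have := cross D (S : Set V) (P i) x y h0 h1 h2 h3 (by exact_mod_cast hx)
        (by exact_mod_cast hy)
      simpa using this
    choose f hf1 hf2 using hex
    have hinj : Function.Injective f := by
      intro i j hij
      by_contra hne
      exact hdis i j hne (hf1 i) (hij ▸ hf1 j)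
    have hle : (univ : Finset (Fin k)).card ≤
        (univ.filter (fun e : E => D.tail e ∈ S ∧ D.head e ∉ S)).card :=
      card_le_card_of_injOn f (by intro i _; simpa using hf2 i)
        (by intro i _ j _ h; exact hinj h)
    rw [card_univ, Fintype.card_fin] at hle
    omega

/-- The numbers of parallel edges (for the parameter `r`). -/
def mult (r : ℕ) : Fin 6 → Fin 6 → ℕ :=
  ![![0, 0, 0, 1, r - 1, 0],
    ![2, 0, 0, r - 2, 0, 0],
    ![0, 0, 0, 0, 1, r - 1],
    ![1, r - 1, 0, 0, 0, 0],
    ![r - 1, 0, 1, 0, 0, 0],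
    ![0, 0, r - 2, 0, 2, 0]]

/-- The edges: the `k`-th copy of the pair `(x, y)`. -/
abbrev Ed (r : ℕ) : Type := Σ p : Fin 6 × Fin 6, Fin (mult r p.1 p.2)

/-- The digraph. -/
def dig (r : ℕ) : Digraph (Fin 6) (Ed r) where
  tail e := e.1.1
  head e := e.1.2
  ne := by
    rintro ⟨⟨x, y⟩, k⟩ h
    simp only at h
    subst h
    have : mult r x x = 0 := by fin_cases x <;> rfl
    exact absurd k.2 (by simp only; omega)

/-- Number of the edges whose pair of ends satisfies a condition. -/
lemma card_edges (r : ℕ) (p : Fin 6 × Fin 6 → Prop) [DecidablePred p] :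
    (univ.filter (fun e : Ed r => p e.1)).card =
      ∑ q ∈ univ.filter p, mult r q.1 q.2 := by
  have : (univ.filter (fun e : Ed r => p e.1)) =
      (univ.filter p).sigma (fun _ => univ) := by
    ext ⟨q, k⟩
    simp
  rw [this, card_sigma]
  simp

lemma outDeg_eq (r : ℕ) (hr : 4 ≤ r) (v : Fin 6) : outDeg (dig r) v = r := by
  unfold outDeg
  rw [Nat.card_eq_fintype_card, Fintype.card_subtype]
  have h := card_edges r (fun q => q.1 = v)
  have h' : (univ.filter (fun e : Ed r => (dig r).tail e = v)).card =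
      (univ.filter (fun e : Ed r => e.1.1 = v)).card := rfl
  rw [h', h]
  have e : ∑ q ∈ univ.filter (fun q : Fin 6 × Fin 6 => q.1 = v), mult r q.1 q.2 =
      ∑ y : Fin 6, mult r v y := by
    rw [Finset.sum_filter, Fintype.sum_prod_type]
    have : ∀ x : Fin 6, (∑ y : Fin 6, if (x, y).1 = v then mult r (x, y).1 (x, y).2 else 0) =
        if x = v then ∑ y : Fin 6, mult r x y else 0 := by
      intro x
      by_cases hx : x = v
      · simp [hx]
      · simp [hx]
    rw [Finset.sum_congr rfl fun x _ => this x]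
    simp
  rw [e]
  fin_cases v <;> simp [mult, Fin.sum_univ_succ] <;> omega

/-- For each ordered pair a set that contains the first and not the second vertex. -/
def cut (x y : Fin 6) : Finset (Fin 6) :=
  if y = 0 then (if x = 1 ∨ x = 3 then {1, 3} else {4, 2, 5})
  else if y = 4 then (if x = 2 ∨ x = 5 then {2, 5} else {0, 1, 3})
  else Finset.univ.erase y

lemma cut_mem : ∀ x y : Fin 6, x ≠ y → x ∈ cut x y ∧ y ∉ cut x y := by
  decide +kernel

/-- the flow out of a set -/
def flow (r : ℕ) (S : Finset (Fin 6)) : ℕ :=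
  ∑ q ∈ univ.filter (fun q : Fin 6 × Fin 6 => q.1 ∈ S ∧ q.2 ∉ S), mult r q.1 q.2

lemma flow_eq (r : ℕ) (S : Finset (Fin 6)) :
    flow r S = ∑ x : Fin 6, ∑ y : Fin 6, if x ∈ S ∧ y ∉ S then mult r x y else 0 := by
  unfold flow
  rw [Finset.sum_filter, Fintype.sum_prod_type]

lemma flow_le (r : ℕ) (hr : 4 ≤ r) (x y : Fin 6) (hxy : x ≠ y) : flow r (cut x y) ≤ r - 1 := by
  rw [flow_eq]
  fin_cases y
  · have : cut x 0 = {1, 3} ∨ cut x 0 = {4, 2, 5} := by
      unfold cut; simp only [if_true]; split_ifs <;> simp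
    rcases this with h | h
    · change ∑ a : Fin 6, ∑ b : Fin 6, (if a ∈ cut x 0 ∧ b ∉ cut x 0 then mult r a b else 0) ≤ _
      rw [h]
      simp [mult, Fin.sum_univ_succ]
      omega
    · change ∑ a : Fin 6, ∑ b : Fin 6, (if a ∈ cut x 0 ∧ b ∉ cut x 0 then mult r a b else 0) ≤ _
      rw [h]
      simp [mult, Fin.sum_univ_succ]
  · change ∑ a : Fin 6, ∑ b : Fin 6, (if a ∈ cut x 1 ∧ b ∉ cut x 1 then mult r a b else 0) ≤ _
    have h : cut x 1 = Finset.univ.erase 1 := by unfold cut; simp
    rw [h]
    simp [mult, Fin.sum_univ_succ]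
  · change ∑ a : Fin 6, ∑ b : Fin 6, (if a ∈ cut x 2 ∧ b ∉ cut x 2 then mult r a b else 0) ≤ _
    have h : cut x 2 = Finset.univ.erase 2 := by unfold cut; simp
    rw [h]
    simp [mult, Fin.sum_univ_succ]
    omega
  · change ∑ a : Fin 6, ∑ b : Fin 6, (if a ∈ cut x 3 ∧ b ∉ cut x 3 then mult r a b else 0) ≤ _
    have h : cut x 3 = Finset.univ.erase 3 := by unfold cut; simp
    rw [h]
    simp [mult, Fin.sum_univ_succ]
    omega
  · have : cut x 4 = {2, 5} ∨ cut x 4 = {0, 1, 3} := by
      unfold cut; simp only [if_true]; split_ifs <;> simp_all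
    rcases this with h | h
    · change ∑ a : Fin 6, ∑ b : Fin 6, (if a ∈ cut x 4 ∧ b ∉ cut x 4 then mult r a b else 0) ≤ _
      rw [h]
      simp [mult, Fin.sum_univ_succ]
      omega
    · change ∑ a : Fin 6, ∑ b : Fin 6, (if a ∈ cut x 4 ∧ b ∉ cut x 4 then mult r a b else 0) ≤ _
      rw [h]
      simp [mult, Fin.sum_univ_succ]
  · change ∑ a : Fin 6, ∑ b : Fin 6, (if a ∈ cut x 5 ∧ b ∉ cut x 5 then mult r a b else 0) ≤ _
    have h : cut x 5 = Finset.univ.erase 5 := by unfold cut; simp
    rw [h]
    simp [mult, Fin.sum_univ_succ]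

lemma lam_dig (r : ℕ) (hr : 4 ≤ r) (x y : Fin 6) (hxy : x ≠ y) : lam (dig r) x y ≤ r - 1 := by
  obtain ⟨h1, h2⟩ := cut_mem x y hxy
  refine lam_le (dig r) (cut x y) x y h1 h2 (r - 1) ?_
  have h := card_edges r (fun q => q.1 ∈ cut x y ∧ q.2 ∉ cut x y)
  exact h.le.trans (flow_le r hr x y hxy)

/-- **Theorem.** For every `r ≥ 4` some digraph with six vertices, all of out-degree `r`, satisfies
`λ(x, y) ≤ r - 1` for all distinct vertices `x`, `y`, and in particular for every edge `(x, y)`.
Hence it is not true that for every `r ≥ 1` every (finite, nonempty) digraph in which all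
out-degrees are at least `r` has an edge `(x, y)` with `λ(x, y) ≥ r`. -/
theorem result :
    (∀ r : ℕ, 4 ≤ r → ∃ (E : Type) (_ : Finite E) (D : Digraph (Fin 6) E),
      (∀ v, outDeg D v = r) ∧ (∀ x y, x ≠ y → lam D x y ≤ r - 1) ∧
      ∀ e : E, lam D (D.tail e) (D.head e) ≤ r - 1) ∧
    ¬ (∀ r : ℕ, 1 ≤ r → ∀ (V E : Type) [Finite V] [Finite E] [Nonempty V] (D : Digraph V E),
      (∀ v, r ≤ outDeg D v) → ∃ e : E, r ≤ lam D (D.tail e) (D.head e)) := by
  have h1 : ∀ r : ℕ, 4 ≤ r → ∃ (E : Type) (_ : Finite E) (D : Digraph (Fin 6) E),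
      (∀ v, outDeg D v = r) ∧ (∀ x y, x ≠ y → lam D x y ≤ r - 1) ∧
      ∀ e : E, lam D (D.tail e) (D.head e) ≤ r - 1 := fun r hr =>
    ⟨Ed r, inferInstance, dig r, outDeg_eq r hr, lam_dig r hr,
      fun e => lam_dig r hr _ _ ((dig r).ne e)⟩
  refine ⟨h1, fun H => ?_⟩
  obtain ⟨E, hE, D, hd, -, he⟩ := h1 4 le_rfl
  obtain ⟨e, h⟩ := H 4 (by norm_num) (Fin 6) E D (fun v => (hd v).ge)
  have := he e
  omega

end Pool.Agent.Results.MP_542d22_co.EdgesEveryOrder
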